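import Pool.Agent.Results.MP_6c3374_co.PolyUpper

/-!
# Splitting trees with labels (helper39, MP_6c3374_co)

Definitions for point sets with an oriented splitting tree whose splits carry `k` labels.
-/

namespace Pool.Agent.H39.ST

open Pool.Agent.Results.MP_6c3374_co.PolyUpper

/-- A binary tree whose leaves are points of the plane and whose inner nodes (splits) carry one
of `k` labels. -/
inductive STree (k : ℕ) : Type
  | leaf (a : Plane) : STree k
  | node (s : Fin k) (l r : STree k) : STree k

namespace STree

/-- The set of points at the leaves. -/
noncomputable def pts {k : ℕ} : STree k → Finset Plane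
  | leaf a => {a}
  | node _ l r => by classical exact l.pts ∪ r.pts

/-- `T.Sep s a b`: some split of `T` has the label `s`, the point `a` in its left part and
the point `b` in its right part. -/
def Sep {k : ℕ} : STree k → Fin k → Plane → Plane → Prop
  | leaf _, _, _, _ => False
  | node t l r, s, a, b => (t = s ∧ a ∈ l.pts ∧ b ∈ r.pts) ∨ l.Sep s a b ∨ r.Sep s a b

/-- At every split, with label `s`, left part `l` and right part `r`: every point of `l` is to
the left of every point of `r`; all triples `a, b, y` with `a, b` in `l` separated by a split
with the same label `s` (`a` on the left) and `y` in `r` have the same orientation;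
and all triples `a, b, y` with `a` in `l` and `b, y` in `r` separated by a split with the same
label `s` (`b` on the left) have the same orientation. Triples with other labels are free. -/
def Oriented {k : ℕ} : STree k → Prop
  | leaf _ => True
  | node s l r =>
      (∀ a ∈ l.pts, ∀ b ∈ r.pts, a 0 < b 0) ∧
      (∃ e : Bool, ∀ a b, l.Sep s a b → ∀ y ∈ r.pts, (0 < cr a b y ↔ e = true)) ∧
      (∃ e : Bool, ∀ a ∈ l.pts, ∀ b y, r.Sep s b y → (0 < cr a b y ↔ e = true)) ∧
      l.Oriented ∧ r.Oriented

end STree

/-- `P` is in general position and has an oriented splitting tree with `k` labels. -/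
def Splits (k : ℕ) (P : Finset Plane) : Prop :=
  GeneralPosition P ∧ ∃ T : STree k, T.pts = P ∧ T.Oriented

/-- Every set of at least `n` points with an oriented splitting tree with `k` labels, with its
pairs coloured by two colours, contains `p` points in convex position all of whose pairs have
the same colour. -/
def ForcesIn (k p n : ℕ) : Prop :=
  ∀ P : Finset Plane, Splits k P → n ≤ P.card → ∀ c : Sym2 Plane → Bool,
    ∃ S : Finset Plane, S ⊆ P ∧ S.card = p ∧ ConvexPosition S ∧ Monochromatic c S

/-- The least `n` such that `ForcesIn k p n`: the function `g` of the problem restricted to the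
point sets with an oriented splitting tree with `k` labels. -/
noncomputable def gS (k p : ℕ) : ℕ := sInf {n | ForcesIn k p n}

end Pool.Agent.H39.ST
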