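import Pool.Agent.H39.ST.Upper
import Pool.Agent.H39.QT.Iter3
import Pool.Agent.H39.NotForces

/-!
# Lower bounds for point sets with an oriented splitting tree
-/

namespace Pool.Agent.H39.ST

open Pool.Agent.Results.MP_6c3374_co.PolyUpper Pool.Agent.H39

/-- A levelled structure without long monochromatic chains whose levels carry `q` labels such
that among the levels with the same label the slopes increase with the depth. -/
def GoodL (r k q : ℕ) : Prop :=
  ∃ (L : Type) (_ : Fintype L) (A : Lvl L) (lab : L → Fin q), Fintype.card L = r ∧ Bdd A k ∧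
    ∀ a b, lab a = lab b → A.τ a < A.τ b → A.θ a < A.θ b

lemma goodL_of_good {r k : ℕ} (h : Good r k) : GoodL r k r := by
  obtain ⟨L, _, A, hL, hA⟩ := h
  have e : L ≃ Fin r := (Fintype.equivFin L).trans (finCongr hL)
  refine ⟨L, inferInstance, A, e, hL, hA, ?_⟩
  intro a b hab h
  rw [e.injective hab] at h
  exact absurd h (lt_irrefl _)

lemma GoodL.mono {r k q q' : ℕ} (h : GoodL r k q) (hq : q ≤ q') : GoodL r k q' := by
  obtain ⟨L, _, A, lab, hL, hA, hlab⟩ := h
  refine ⟨L, inferInstance, A, fun a => Fin.castLE hq (lab a), hL, hA, ?_⟩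
  intro a b hab
  exact hlab a b (Fin.castLE_injective hq hab)

open Classical in
lemma goodL_add {r1 k1 r2 k2 q : ℕ} (h1 : GoodL r1 k1 q) (h2 : GoodL r2 k2 q) :
    GoodL (r1 + r2) (k1 + k2) q := by
  obtain ⟨L1, _, A1, lab1, hr1, hk1, hl1⟩ := h1
  obtain ⟨L2, _, A2, lab2, hr2, hk2, hl2⟩ := h2
  obtain ⟨T, hT⟩ := exists_bound A1.τ
  obtain ⟨K, hK⟩ := exists_bound A1.θ
  let A : Lvl (L1 ⊕ L2) :=
    { τ := Sum.elim A1.τ (fun b => T + A2.τ b)
      θ := Sum.elim A1.θ (fun b => K + A2.θ b)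
      τ_inj := by
        rintro (a | a) (b | b) h
        · simp only [Sum.elim_inl] at h; rw [A1.τ_inj h]
        · simp only [Sum.elim_inl, Sum.elim_inr] at h
          have := hT a; omega
        · simp only [Sum.elim_inl, Sum.elim_inr] at h
          have := hT b; omega
        · simp only [Sum.elim_inr] at h
          rw [A2.τ_inj (Nat.add_left_cancel h)]
      θ_inj := by
        rintro (a | a) (b | b) h
        · simp only [Sum.elim_inl] at h; rw [A1.θ_inj h]
        · simp only [Sum.elim_inl, Sum.elim_inr] at h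
          have := hK a; omega
        · simp only [Sum.elim_inl, Sum.elim_inr] at h
          have := hK b; omega
        · simp only [Sum.elim_inr] at h
          rw [A2.θ_inj (Nat.add_left_cancel h)]
      col := fun ℓ x y => Sum.elim (fun a => A1.col a (x ∘ Sum.inl) (y ∘ Sum.inl))
        (fun b => A2.col b (x ∘ Sum.inr) (y ∘ Sum.inr)) ℓ }
  refine ⟨L1 ⊕ L2, inferInstance, A, Sum.elim lab1 lab2, by rw [Fintype.card_sum, hr1, hr2],
    ?_, ?_⟩
  · intro up s u n c hc
    have b1 := block A A1 k1 hk1 Sum.inl (fun a b h => h) (fun a b h => h)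
      (by
        rintro a b (ℓ | ℓ) h3 h4
        · exact ⟨ℓ, rfl⟩
        · exfalso
          have h5 : K + A2.θ ℓ < A1.θ b := h4
          have := hK b
          omega) (fun m x y => rfl) hc
      ((Finset.range n).filter (fun i => ∃ m, Sum.inl m = u i))
      (by intro i hi; simpa using hi)
    have b2 := block A A2 k2 hk2 Sum.inr (fun a b h => Nat.add_lt_add_left h T)
      (fun a b h => Nat.lt_of_add_lt_add_left h)
      (by
        rintro a b (ℓ | ℓ) h3 h4
        · exfalso
          have h5 : K + A2.θ a < A1.θ ℓ := h3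
          have := hK ℓ
          omega
        · exact ⟨ℓ, rfl⟩) (fun m x y => rfl) hc
      ((Finset.range n).filter (fun i => ∃ m, Sum.inr m = u i))
      (by intro i hi; simpa using hi)
    have hcov : Finset.range n ⊆ ((Finset.range n).filter (fun i => ∃ m, Sum.inl m = u i)) ∪
        ((Finset.range n).filter (fun i => ∃ m, Sum.inr m = u i)) := by
      intro i hi
      rw [Finset.mem_union, Finset.mem_filter, Finset.mem_filter]
      rcases h : u i with a | b
      · left; exact ⟨hi, a, rfl⟩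
      · right; exact ⟨hi, b, rfl⟩
    have h3 := Finset.card_le_card hcov
    have h4 := Finset.card_union_le ((Finset.range n).filter (fun i => ∃ m, Sum.inl m = u i))
        ((Finset.range n).filter (fun i => ∃ m, Sum.inr m = u i))
    rw [Finset.card_range] at h3
    omega
  · rintro (a | a) (b | b) hab h
    · exact hl1 a b hab h
    · show A1.θ a < K + A2.θ b
      have := hK a
      omega
    · exfalso
      have h' : T + A2.τ a < A1.τ b := h
      have := hT b
      omega
    · show K + A2.θ a < K + A2.θ b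
      have h' : T + A2.τ a < T + A2.τ b := h
      have := hl2 a b hab (by omega)
      omega

lemma goodL_mul {r k q : ℕ} (h : GoodL r k q) (m : ℕ) (hm : 1 ≤ m) :
    GoodL (m * r) (m * k) q := by
  induction m, hm using Nat.le_induction with
  | base => simpa using h
  | succ m _ ih =>
    rw [Nat.succ_mul, Nat.succ_mul]
    exact goodL_add ih h

section

variable {L : Type} [Fintype L]

open Classical in
/-- The splitting tree of a levelled structure. -/
lemma exists_tree {q : ℕ} (A : Lvl L) (lab : L → Fin q)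
    (hlab : ∀ a b, lab a = lab b → A.τ a < A.τ b → A.θ a < A.θ b)
    {Θ : ℕ} {ε : ℝ} (hs : Small A.τ A.θ Θ ε) :
    ∀ (n : ℕ) (R : Finset L), R.card = n → (∀ ℓ ∈ R, ∀ m, m ∉ R → A.τ m < A.τ ℓ) →
      ∀ x0 : L → Bool, ∃ T : STree q,
        (∀ a, a ∈ T.pts ↔ ∃ x, (∀ m, m ∉ R → x m = x0 m) ∧ pt A.τ A.θ ε x = a) ∧ T.Oriented ∧
        (∀ s a b, T.Sep s a b → ∃ x y ℓ, ℓ ∈ R ∧ lab ℓ = s ∧ (∀ m, m ∉ R → x m = x0 m) ∧
          (∀ m, m ∉ R → y m = x0 m) ∧ Df A.τ x y ℓ ∧ pt A.τ A.θ ε x = a ∧
          pt A.τ A.θ ε y = b) := by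
  intro n
  induction n with
  | zero =>
    intro R hR _ x0
    rw [Finset.card_eq_zero] at hR
    subst hR
    refine ⟨STree.leaf (pt A.τ A.θ ε x0), ?_, trivial, ?_⟩
    · intro a
      simp only [STree.pts, Finset.mem_singleton]
      constructor
      · rintro rfl
        exact ⟨x0, fun _ _ => rfl, rfl⟩
      · rintro ⟨x, hx, rfl⟩
        have : x = x0 := funext fun m => hx m (Finset.notMem_empty m)
        rw [this]
    · intro s a b h
      exact h.elim
  | succ n ih =>
    intro R hR hfin x0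
    have hne : R.Nonempty := by
      rw [← Finset.card_pos]; omega
    obtain ⟨ℓ, hℓ, hmin⟩ := R.exists_min_image A.τ hne
    have hR' : (R.erase ℓ).card = n := by rw [Finset.card_erase_of_mem hℓ]; omega
    have hmin' : ∀ m ∈ R.erase ℓ, A.τ ℓ < A.τ m := by
      intro m hm
      rw [Finset.mem_erase] at hm
      exact lt_of_le_of_ne (hmin m hm.2) (fun h => hm.1 (A.τ_inj h).symm)
    have hnot : ∀ m, m ∉ R.erase ℓ → m = ℓ ∨ m ∉ R := by
      intro m hm
      by_cases h : m = ℓ
      · exact Or.inl h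
      · exact Or.inr (fun h' => hm (Finset.mem_erase.mpr ⟨h, h'⟩))
    have hfin' : ∀ ℓ' ∈ R.erase ℓ, ∀ m, m ∉ R.erase ℓ → A.τ m < A.τ ℓ' := by
      intro ℓ' hℓ' m hm
      rcases hnot m hm with h | h
      · rw [h]; exact hmin' ℓ' hℓ'
      · exact hfin ℓ' (Finset.mem_erase.mp hℓ').2 m h
    have hearly : ∀ m, A.τ m < A.τ ℓ → m ∉ R := by
      intro m hm h
      have := hmin m h
      omega
    obtain ⟨Tf, hf1, hf2, hf3⟩ := ih (R.erase ℓ) hR' hfin' (Function.update x0 ℓ false)
    obtain ⟨Tt, ht1, ht2, ht3⟩ := ih (R.erase ℓ) hR' hfin' (Function.update x0 ℓ true)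
    -- restriction of the outside conditions
    have hout : ∀ (v : Bool) (x : L → Bool),
        (∀ m, m ∉ R.erase ℓ → x m = Function.update x0 ℓ v m) →
        x ℓ = v ∧ ∀ m, m ∉ R → x m = x0 m := by
      intro v x hx
      constructor
      · have := hx ℓ (Finset.notMem_erase ℓ R)
        rwa [Function.update_self] at this
      · intro m hm
        have hmℓ : m ≠ ℓ := fun h => hm (by rw [h]; exact hℓ)
        have := hx m (fun h => hm (Finset.mem_erase.mp h).2)
        rwa [Function.update_of_ne hmℓ] at this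
    have hin : ∀ (v : Bool) (x : L → Bool), x ℓ = v → (∀ m, m ∉ R → x m = x0 m) →
        ∀ m, m ∉ R.erase ℓ → x m = Function.update x0 ℓ v m := by
      intro v x hv hx m hm
      rcases hnot m hm with h | h
      · rw [h, Function.update_self]; exact hv
      · have hmℓ : m ≠ ℓ := fun h' => h (by rw [h']; exact hℓ)
        rw [Function.update_of_ne hmℓ]
        exact hx m h
    have hDf : ∀ x y : L → Bool,
        (∀ m, m ∉ R.erase ℓ → x m = Function.update x0 ℓ false m) →
        (∀ m, m ∉ R.erase ℓ → y m = Function.update x0 ℓ true m) → Df A.τ x y ℓ := by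
      intro x y hx hy
      obtain ⟨hx1, hx2⟩ := hout false x hx
      obtain ⟨hy1, hy2⟩ := hout true y hy
      exact ⟨hx1, hy1, fun m hm => by rw [hx2 m (hearly m hm), hy2 m (hearly m hm)]⟩
    refine ⟨STree.node (lab ℓ) Tf Tt, ?_, ⟨?_, ⟨false, ?_⟩, ⟨true, ?_⟩, hf2, ht2⟩, ?_⟩
    · intro a
      rw [STree.mem_pts_node, hf1, ht1]
      constructor
      · rintro (⟨x, hx, rfl⟩ | ⟨x, hx, rfl⟩)
        · exact ⟨x, (hout false x hx).2, rfl⟩
        · exact ⟨x, (hout true x hx).2, rfl⟩
      · rintro ⟨x, hx, rfl⟩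
        rcases h : x ℓ with _ | _
        · exact Or.inl ⟨x, hin false x h hx, rfl⟩
        · exact Or.inr ⟨x, hin true x h hx, rfl⟩
    · intro a ha b hb
      obtain ⟨x, hx, rfl⟩ := (hf1 a).mp ha
      obtain ⟨y, hy, rfl⟩ := (ht1 b).mp hb
      rw [pt_zero, pt_zero]
      exact px_lt A.τ_inj hs (hDf x y hx hy)
    · intro a b hab y hy
      obtain ⟨x, x', ℓ', h1, h2, h3, h4, h5, rfl, rfl⟩ := hf3 _ a b hab
      obtain ⟨z, hz, rfl⟩ := (ht1 y).mp hy
      have h6 := hlab ℓ ℓ' h2.symm (hmin' ℓ' h1)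
      have h7 := orient_neg A.τ_inj hs h5 (hDf x' z h4 hz) h6
      constructor
      · intro h8; exact absurd h8 (not_lt.mpr h7.le)
      · intro h8; exact absurd h8 (by decide)
    · intro a ha b y hby
      obtain ⟨x, x', ℓ', h1, h2, h3, h4, h5, rfl, rfl⟩ := ht3 _ b y hby
      obtain ⟨z, hz, rfl⟩ := (hf1 a).mp ha
      have h6 := hlab ℓ ℓ' h2.symm (hmin' ℓ' h1)
      have h7 := orient_pos A.τ_inj hs (hDf z x hz h3) h5 h6
      exact ⟨fun _ => rfl, fun _ => h7⟩
    · rintro s a b (⟨h1, h2, h3⟩ | h | h)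
      · obtain ⟨x, hx, rfl⟩ := (hf1 a).mp h2
        obtain ⟨y, hy, rfl⟩ := (ht1 b).mp h3
        exact ⟨x, y, ℓ, hℓ, h1, (hout false x hx).2, (hout true y hy).2, hDf x y hx hy, rfl, rfl⟩
      · obtain ⟨x, y, ℓ', h1, h2, h3, h4, h5, h6, h7⟩ := hf3 s a b h
        exact ⟨x, y, ℓ', (Finset.mem_erase.mp h1).2, h2, (hout false x h3).2,
          (hout false y h4).2, h5, h6, h7⟩
      · obtain ⟨x, y, ℓ', h1, h2, h3, h4, h5, h6, h7⟩ := ht3 s a b h
        exact ⟨x, y, ℓ', (Finset.mem_erase.mp h1).2, h2, (hout true x h3).2,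
          (hout true y h4).2, h5, h6, h7⟩

open Classical in
lemma splits_image {q : ℕ} (A : Lvl L) (lab : L → Fin q)
    (hlab : ∀ a b, lab a = lab b → A.τ a < A.τ b → A.θ a < A.θ b)
    {Θ : ℕ} {ε : ℝ} (hs : Small A.τ A.θ Θ ε) :
    Splits q (Finset.univ.image (pt A.τ A.θ ε)) := by
  refine ⟨?_, ?_⟩
  · intro a ha b hb c hc hab hac hbc hcol
    rw [Finset.mem_image] at ha hb hc
    obtain ⟨x, _, rfl⟩ := ha
    obtain ⟨y, _, rfl⟩ := hb
    obtain ⟨z, _, rfl⟩ := hc
    apply genpos A.τ_inj A.θ_inj hs (x := x) (y := y) (z := z)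
    · rintro rfl; exact hab rfl
    · rintro rfl; exact hac rfl
    · rintro rfl; exact hbc rfl
    · exact cr_of_collinear hcol
  · obtain ⟨T, h1, h2, _⟩ := exists_tree A lab hlab hs _ Finset.univ rfl
      (fun ℓ _ m hm => absurd (Finset.mem_univ m) hm) (fun _ => false)
    refine ⟨T, ?_, h2⟩
    ext a
    rw [h1, Finset.mem_image]
    constructor
    · rintro ⟨x, _, hx⟩
      exact ⟨x, Finset.mem_univ _, hx⟩
    · rintro ⟨x, _, hx⟩
      exact ⟨x, fun m hm => absurd (Finset.mem_univ m) hm, hx⟩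

open Classical in
/-- A set of leaves in convex position and of one colour is small. -/
lemma no_mono (A : Lvl L) {k : ℕ} (hA : Bdd A k) {Θ : ℕ} {ε : ℝ} (hs : Small A.τ A.θ Θ ε)
    {p : ℕ} (hp : 2 * k + 1 ≤ p) (hk : 1 ≤ k) (S : Finset Plane)
    (hSP : ∀ a ∈ S, ∃ x, pt A.τ A.θ ε x = a) (hSc : S.card = p) (hconv : ConvexPosition S)
    (hm : Monochromatic (colr A ε) S) : False := by
  obtain ⟨col, hmono⟩ := hm
  -- the set of leaves
  set S' : Finset (L → Bool) := Finset.univ.filter (fun x => pt A.τ A.θ ε x ∈ S) with hS'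
  have hmemS' : ∀ x, x ∈ S' ↔ pt A.τ A.θ ε x ∈ S := by intro x; simp [hS']
  have hS'c : S'.card = p := by
    rw [← hSc, ← Finset.card_image_of_injective S' (pt_inj A.τ_inj hs)]
    congr 1
    ext a
    rw [Finset.mem_image]
    constructor
    · rintro ⟨x, hx, rfl⟩
      exact (hmemS' x).mp hx
    · intro ha
      obtain ⟨x, rfl⟩ := hSP a ha
      exact ⟨x, (hmemS' x).mpr ha, rfl⟩
  have hcolS : ∀ x ∈ S', ∀ y ∈ S', ∀ ℓ, Df A.τ x y ℓ → A.col ℓ x y = col := by
    intro x hx y hy ℓ hd
    rw [← colr_eq A hs hd]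
    apply hmono _ ((hmemS' x).mp hx) _ ((hmemS' y).mp hy)
    intro he
    have e := pt_inj A.τ_inj hs he
    subst e
    have := px_lt A.τ_inj hs hd
    exact lt_irrefl _ this
  have hne : S'.Nonempty := by
    rw [← Finset.card_pos, hS'c]; omega
  obtain ⟨a, ha, hamin⟩ := Finset.exists_min_image S' (px A.τ ε) hne
  obtain ⟨b, hb, hbmax⟩ := Finset.exists_max_image S' (px A.τ ε) hne
  have hinj := px_inj (θ := A.θ) A.τ_inj hs
  have hltL : ∀ x ∈ S', x ≠ a → px A.τ ε a < px A.τ ε x := by
    intro x hx hxa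
    rcases (hamin x hx).lt_or_eq with h1 | h1
    · exact h1
    · exact absurd (hinj h1).symm hxa
  have hltR : ∀ x ∈ S', x ≠ b → px A.τ ε x < px A.τ ε b := by
    intro x hx hxb
    rcases (hbmax x hx).lt_or_eq with h1 | h1
    · exact h1
    · exact absurd (hinj h1) hxb
  have hab : a ≠ b := by
    rintro rfl
    have : S' ⊆ {a} := by
      intro x hx
      rw [Finset.mem_singleton]
      by_contra hxa
      have := hltL x hx hxa
      have := hbmax x hx
      linarith
    have := Finset.card_le_card this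
    rw [hS'c, Finset.card_singleton] at this
    omega
  let Up := S'.filter (fun y => y ≠ a ∧ y ≠ b ∧
    cr (pt A.τ A.θ ε a) (pt A.τ A.θ ε y) (pt A.τ A.θ ε b) < 0)
  let Dn := S'.filter (fun y => y ≠ a ∧ y ≠ b ∧
    0 < cr (pt A.τ A.θ ε a) (pt A.τ A.θ ε y) (pt A.τ A.θ ε b))
  have hcov : S' ⊆ (Up ∪ Dn) ∪ {a, b} := by
    intro y hy
    simp only [Up, Dn, Finset.mem_union, Finset.mem_filter, Finset.mem_insert,
      Finset.mem_singleton]
    by_cases hya : y = a
    · right; left; exact hya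
    by_cases hyb : y = b
    · right; right; exact hyb
    left
    rcases lt_trichotomy (cr (pt A.τ A.θ ε a) (pt A.τ A.θ ε y) (pt A.τ A.θ ε b)) 0 with h1 | h1 | h1
    · left; exact ⟨hy, hya, hyb, h1⟩
    · exact absurd h1 (genpos A.τ_inj A.θ_inj hs (Ne.symm hya) hab hyb)
    · right; exact ⟨hy, hya, hyb, h1⟩
  have hc1 := Finset.card_le_card hcov
  have hc2 := Finset.card_union_le (Up ∪ Dn) {a, b}
  have hc3 := Finset.card_union_le Up Dn
  rw [Finset.card_pair hab] at hc2
  rw [hS'c] at hc1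
  -- the convex hull argument
  have hull : ∀ y ∈ S', ∀ p1 ∈ S', ∀ p2 ∈ S', ∀ q1 ∈ S', ∀ q2 ∈ S',
      px A.τ ε p1 < px A.τ ε y → px A.τ ε y < px A.τ ε p2 →
      px A.τ ε q1 < px A.τ ε y → px A.τ ε y < px A.τ ε q2 →
      cr (pt A.τ A.θ ε p1) (pt A.τ A.θ ε y) (pt A.τ A.θ ε p2) < 0 →
      0 < cr (pt A.τ A.θ ε q1) (pt A.τ A.θ ε y) (pt A.τ A.θ ε q2) → False := by
    intro y hy p1 hp1 p2 hp2 q1 hq1 q2 hq2 g1 g2 g3 g4 g5 g6
    apply hconv (pt A.τ A.θ ε y) ((hmemS' y).mp hy)
    have hin : ∀ x ∈ S', px A.τ ε x ≠ px A.τ ε y →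
        pt A.τ A.θ ε x ∈ convexHull ℝ ((S : Set Plane) \ {pt A.τ A.θ ε y}) := by
      intro x hx hxy
      apply subset_convexHull
      refine ⟨(hmemS' x).mp hx, ?_⟩
      rw [Set.mem_singleton_iff]
      intro he
      apply hxy
      rw [pt_inj A.τ_inj hs he]
    apply hull_mem (convex_convexHull ℝ _) (hin p1 hp1 g1.ne) (hin p2 hp2 g2.ne')
      (hin q1 hq1 g3.ne) (hin q2 hq2 g4.ne')
    · rw [pt_zero, pt_zero]; exact g1
    · rw [pt_zero, pt_zero]; exact g2
    · rw [pt_zero, pt_zero]; exact g3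
    · rw [pt_zero, pt_zero]; exact g4
    · exact g5
    · exact g6
  have hcr : ∀ x y z, px A.τ ε x < px A.τ ε y → px A.τ ε y < px A.τ ε z →
      cr (pt A.τ A.θ ε x) (pt A.τ A.θ ε y) (pt A.τ A.θ ε z) ≠ 0 := fun x y z h1 h2 =>
    cr_ne A.τ_inj A.θ_inj hs h1 h2
  rcases Nat.lt_or_ge Up.card k with hU | hU
  · -- use the lower part
    have hDc : k ≤ Dn.card := by omega
    have haD : a ∉ Dn := by simp [Dn]
    have hbD : b ∉ Dn := by simp [Dn]
    have hTc : (insert a (insert b Dn)).card = Dn.card + 2 := by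
      rw [Finset.card_insert_of_notMem, Finset.card_insert_of_notMem hbD]
      rw [Finset.mem_insert]
      push Not
      exact ⟨hab, haD⟩
    have hTsub : ∀ x ∈ insert a (insert b Dn), x ∈ S' := by
      intro x hx
      simp only [Dn, Finset.mem_insert, Finset.mem_filter] at hx
      rcases hx with rfl | rfl | hx
      · exact ha
      · exact hb
      · exact hx.1
    apply chain_of_set A hs hA (insert a (insert b Dn)) (by omega) col
      (fun x hx y hy ℓ hd => hcolS x (hTsub x hx) y (hTsub y hy) ℓ hd) true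
    intro x hx y hy z hz h1 h2
    rw [if_pos rfl]
    by_contra hcon
    have h3 : cr (pt A.τ A.θ ε x) (pt A.τ A.θ ε y) (pt A.τ A.θ ε z) < 0 :=
      lt_of_le_of_ne (not_lt.mp hcon) (hcr x y z h1 h2)
    have hya : y ≠ a := by
      rintro rfl
      have := hamin x (hTsub x hx); linarith
    have hyb : y ≠ b := by
      rintro rfl
      have := hbmax z (hTsub z hz); linarith
    have hyD : y ∈ Dn := by
      rw [Finset.mem_insert, Finset.mem_insert] at hy
      rcases hy with hy | hy | hy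
      · exact absurd hy hya
      · exact absurd hy hyb
      · exact hy
    have hyD' := hyD
    simp only [Dn, Finset.mem_filter] at hyD'
    exact hull y (hTsub y hy) x (hTsub x hx) z (hTsub z hz) a ha b hb h1 h2
      (hltL y hyD'.1 hya) (hltR y hyD'.1 hyb) h3 hyD'.2.2.2
  · have haU : a ∉ Up := by simp [Up]
    have hbU : b ∉ Up := by simp [Up]
    have hTc : (insert a (insert b Up)).card = Up.card + 2 := by
      rw [Finset.card_insert_of_notMem, Finset.card_insert_of_notMem hbU]
      rw [Finset.mem_insert]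
      push Not
      exact ⟨hab, haU⟩
    have hTsub : ∀ x ∈ insert a (insert b Up), x ∈ S' := by
      intro x hx
      simp only [Up, Finset.mem_insert, Finset.mem_filter] at hx
      rcases hx with rfl | rfl | hx
      · exact ha
      · exact hb
      · exact hx.1
    apply chain_of_set A hs hA (insert a (insert b Up)) (by omega) col
      (fun x hx y hy ℓ hd => hcolS x (hTsub x hx) y (hTsub y hy) ℓ hd) false
    intro x hx y hy z hz h1 h2
    rw [if_neg (by decide)]
    by_contra hcon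
    have h3 : 0 < cr (pt A.τ A.θ ε x) (pt A.τ A.θ ε y) (pt A.τ A.θ ε z) :=
      lt_of_le_of_ne (not_lt.mp hcon) (hcr x y z h1 h2).symm
    have hya : y ≠ a := by
      rintro rfl
      have := hamin x (hTsub x hx); linarith
    have hyb : y ≠ b := by
      rintro rfl
      have := hbmax z (hTsub z hz); linarith
    have hyD : y ∈ Up := by
      rw [Finset.mem_insert, Finset.mem_insert] at hy
      rcases hy with hy | hy | hy
      · exact absurd hy hya
      · exact absurd hy hyb
      · exact hy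
    have hyD' := hyD
    simp only [Up, Finset.mem_filter] at hyD'
    exact hull y (hTsub y hy) a ha b hb x (hTsub x hx) z (hTsub z hz)
      (hltL y hyD'.1 hya) (hltR y hyD'.1 hyb) h1 h2 hyD'.2.2.2 h3

end

open Classical in
/-- The lower bound given by a labelled structure. -/
lemma not_forcesIn {r k q : ℕ} (h : GoodL r k q) {p n : ℕ} (hp : 2 * k + 1 ≤ p) (hk : 1 ≤ k)
    (hn : n ≤ 2 ^ r) : ¬ ForcesIn q p n := by
  obtain ⟨L, _, A, lab, hL, hA, hlab⟩ := h
  obtain ⟨Θ, ε, hs⟩ := exists_small A.τ A.θ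
  intro hF
  have hcard : (Finset.univ.image (pt A.τ A.θ ε)).card = 2 ^ r := by
    rw [Finset.card_image_of_injective _ (pt_inj A.τ_inj hs), Finset.card_univ, Fintype.card_fun,
      Fintype.card_bool, hL]
  obtain ⟨S, hSP, hSc, hconv, hmono⟩ := hF _ (splits_image A lab hlab hs)
    (by rw [hcard]; exact hn) (colr A ε)
  apply no_mono A hA hs hp hk S _ hSc hconv hmono
  intro a ha
  have := hSP ha
  rw [Finset.mem_image] at this
  obtain ⟨x, _, hx⟩ := this
  exact ⟨x, hx⟩

/-- For every number of labels the function grows at least exponentially. -/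
lemma lower_all {k p : ℕ} (hk : 1 ≤ k) (hp : 3 ≤ p) : ¬ ForcesIn k p (2 ^ ((p - 1) / 2)) := by
  have h1 : 1 ≤ (p - 1) / 2 := by omega
  have h2 := goodL_mul ((goodL_of_good good_one).mono hk) ((p - 1) / 2) h1
  rw [mul_one] at h2
  exact not_forcesIn h2 (by omega) h1 le_rfl

/-- With `k` labels, where `k` is at least `2 ^ (544000 * K ^ 2 * (log₂ K + 6))`, the function
grows at least like `2 ^ (K * p)`. -/
lemma lower_big {K k : ℕ} (hK : 1 ≤ K) (hkK : 2 ^ (544000 * K ^ 2 * (Nat.log 2 K + 6)) ≤ k) :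
    ∃ p₀, ∀ p ≥ p₀, ¬ ForcesIn k p (2 ^ (K * p)) := by
  obtain ⟨r, f, hr, hf, hg, hrf, hfr, hb⟩ := QT.good_ratio3 (K := 4 * K) (by omega)
  have hlog : Nat.log 2 (4 * K) = Nat.log 2 K + 2 := by
    have e : 4 * K = K * 2 * 2 := by ring
    rw [e, Nat.log_mul_base (by norm_num) (by omega), Nat.log_mul_base (by norm_num) (by omega)]
  have hrk : r ≤ k := by
    refine (hb.trans (le_of_eq ?_)).trans hkK
    rw [hlog]
    congr 1
    ring
  refine ⟨4 * f + 3, fun p hp => ?_⟩
  obtain ⟨m, hm⟩ : ∃ m, m = (p - 1) / (2 * f) := ⟨_, rfl⟩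
  have h1 : m * (2 * f) ≤ p - 1 := by rw [hm]; exact Nat.div_mul_le_self _ _
  have h2 : p - 1 < (m + 1) * (2 * f) := by
    have := Nat.lt_div_mul_add (a := p - 1) (b := 2 * f) (by omega)
    rw [← hm] at this
    linarith
  have hm1 : 1 ≤ m := by
    by_contra hcon
    have : m = 0 := by omega
    rw [this] at h2
    omega
  have hgm := goodL_mul ((goodL_of_good hg).mono hrk) m hm1
  have h3 : 2 * (m * f) + 1 ≤ p := by
    have : m * (2 * f) = 2 * (m * f) := by ring
    omega
  have h5 : K * p ≤ m * r := by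
    have h6 : m * (4 * K * f) ≤ m * r := Nat.mul_le_mul_left _ hrf
    have h7 : p ≤ 2 * (m * f) + 2 * f := by
      have : (m + 1) * (2 * f) = 2 * (m * f) + 2 * f := by ring
      omega
    have h8 : K * p ≤ m * (4 * K * f) := by
      have e : m * (4 * K * f) = K * (4 * (m * f)) := by ring
      rw [e]
      have h9 : f ≤ m * f := Nat.le_mul_of_pos_left f hm1
      exact Nat.mul_le_mul_left _ (by omega)
    exact h8.trans h6
  exact not_forcesIn hgm h3 (Nat.mul_pos hm1 hf) (Nat.pow_le_pow_right (by norm_num) h5)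

end Pool.Agent.H39.ST
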