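import Pool.Agent.H39.ST.Defs

/-!
# The linear upper bound for point sets with few labels
-/

namespace Pool.Agent.H39.ST

open Pool.Agent.Results.MP_6c3374_co.PolyUpper

namespace STree

variable {k : ℕ}

lemma mem_pts_node {s : Fin k} {l r : STree k} {a : Plane} :
    a ∈ (node s l r).pts ↔ a ∈ l.pts ∨ a ∈ r.pts := by
  simp [pts]

lemma pts_nonempty (T : STree k) : T.pts.Nonempty := by
  induction T with
  | leaf a => exact ⟨a, by simp [pts]⟩
  | node s l r hl hr =>
    obtain ⟨a, ha⟩ := hl
    exact ⟨a, mem_pts_node.mpr (Or.inl ha)⟩

/-- The points of an oriented tree have distinct abscissae. -/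
lemma Oriented.inj {T : STree k} (h : T.Oriented) : ∀ a ∈ T.pts, ∀ b ∈ T.pts, a 0 = b 0 → a = b := by
  induction T with
  | leaf x =>
    intro a ha b hb _
    simp only [pts, Finset.mem_singleton] at ha hb
    rw [ha, hb]
  | node s l r hl hr =>
    obtain ⟨h1, _, _, h4, h5⟩ := h
    intro a ha b hb hab
    rw [mem_pts_node] at ha hb
    rcases ha with ha | ha <;> rcases hb with hb | hb
    · exact hl h4 a ha b hb hab
    · exact absurd hab (h1 a ha b hb).ne
    · exact absurd hab (h1 b hb a ha).ne'
    · exact hr h5 a ha b hb hab

/-- `S` is a chain of type `i = (s, col, up)`: all pairs are separated by splits with label `s`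
and have the colour `col`, all triples have the orientation `up`. -/
def Chain (T : STree k) (c : Sym2 Plane → Bool) (i : Fin k × Bool × Bool) (S : Finset Plane) :
    Prop :=
  (∀ a ∈ S, ∀ b ∈ S, a 0 < b 0 → T.Sep i.1 a b ∧ c s(a, b) = i.2.1) ∧
  ∀ a ∈ S, ∀ b ∈ S, ∀ y ∈ S, a 0 < b 0 → b 0 < y 0 → (0 < cr a b y ↔ i.2.2 = true)

lemma Chain.mono {T T' : STree k} {c : Sym2 Plane → Bool} {i : Fin k × Bool × Bool}
    {S : Finset Plane} (h : T.Chain c i S) (hT : ∀ s a b, T.Sep s a b → T'.Sep s a b) :
    T'.Chain c i S :=
  ⟨fun a ha b hb hab => ⟨hT _ _ _ (h.1 a ha b hb hab).1, (h.1 a ha b hb hab).2⟩, h.2⟩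

open Classical in
/-- The main counting lemma. -/
lemma card_le (c : Sym2 Plane → Bool) (T : STree k) (hT : T.Oriented) :
    ∀ (w : Fin k × Bool × Bool → ℕ) (Q : Finset Plane), Q ⊆ T.pts →
      (∀ i S, S ⊆ Q → T.Chain c i S → S.card ≤ w i) → Q.card ≤ 4 ^ (∑ i, w i) := by
  induction T with
  | leaf a =>
    intro w Q hQ _
    calc Q.card ≤ ({a} : Finset Plane).card := Finset.card_le_card (by simpa [pts] using hQ)
      _ = 1 := Finset.card_singleton a
      _ ≤ 4 ^ (∑ i, w i) := Nat.one_le_pow _ _ (by norm_num)
  | node s l r hl hr =>
    intro w Q hQ hw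
    obtain ⟨h1, ⟨e, he⟩, ⟨f, hf⟩, h4, h5⟩ := hT
    have hsl : ∀ s' a b, l.Sep s' a b → (node s l r).Sep s' a b :=
      fun s' a b h => Or.inr (Or.inl h)
    have hsr : ∀ s' a b, r.Sep s' a b → (node s l r).Sep s' a b :=
      fun s' a b h => Or.inr (Or.inr h)
    -- the two parts
    set Ql := Q.filter (fun a => a ∈ l.pts) with hQl
    set Qr := Q.filter (fun a => a ∉ l.pts) with hQr
    have hQlr : Ql.card + Qr.card = Q.card := by
      rw [hQl, hQr]; exact Finset.card_filter_add_card_filter_not _
    have hQlsub : Ql ⊆ l.pts := fun a ha => (Finset.mem_filter.mp ha).2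
    have hQrsub : Qr ⊆ r.pts := by
      intro a ha
      have h := Finset.mem_filter.mp ha
      exact (mem_pts_node.mp (hQ h.1)).resolve_left h.2
    have hQlQ : Ql ⊆ Q := Finset.filter_subset _ _
    have hQrQ : Qr ⊆ Q := Finset.filter_subset _ _
    rcases Finset.eq_empty_or_nonempty Qr with hre | hrn
    · -- everything on the left
      rw [hre, Finset.card_empty, add_zero] at hQlr
      rw [← hQlr]
      exact hl h4 w Ql hQlsub (fun i S hS hc => hw i S (hS.trans hQlQ) (hc.mono hsl))
    rcases Finset.eq_empty_or_nonempty Ql with hle | hln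
    · rw [hle, Finset.card_empty, zero_add] at hQlr
      rw [← hQlr]
      exact hr h5 w Qr hQrsub (fun i S hS hc => hw i S (hS.trans hQrQ) (hc.mono hsr))
    obtain ⟨y, hy⟩ := hrn
    obtain ⟨x, hx⟩ := hln
    -- all parameters are positive
    have hw1 : ∀ i, 1 ≤ w i := by
      intro i
      have := hw i {x} (by simpa using hQlQ hx) ⟨by
        intro a ha b hb hab
        rw [Finset.mem_singleton] at ha hb
        rw [ha, hb] at hab
        exact absurd hab (lt_irrefl _), by
        intro a ha b hb y' _ hab
        rw [Finset.mem_singleton] at ha hb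
        rw [ha, hb] at hab
        exact absurd hab (lt_irrefl _)⟩
      simpa using this
    -- lowering one parameter
    have hsum : ∀ i0, (∑ i, w i) = (∑ i, Function.update w i0 (w i0 - 1) i) + 1 := by
      intro i0
      have e1 := Finset.sum_update_of_mem (s := Finset.univ) (Finset.mem_univ i0) w (w i0 - 1)
      have e2 : (∑ i, w i) = w i0 + ∑ i ∈ Finset.univ \ {i0}, w i := by
        rw [← Finset.sum_sdiff (Finset.subset_univ {i0})]
        simp [add_comm]
      rw [e1, e2]
      have := hw1 i0
      omega
    obtain ⟨N, hN⟩ : ∃ N, (∑ i, w i) = N + 1 := ⟨_, hsum (s, true, true)⟩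
    have hsum' : ∀ i0, (∑ i, Function.update w i0 (w i0 - 1) i) = N := by
      intro i0
      have := hsum i0
      omega
    -- neighbours of `y` in the left part
    have hLc : ∀ col, (Ql.filter (fun a => c s(a, y) = col)).card ≤ 4 ^ N := by
      intro col
      rw [← hsum' (s, col, e)]
      apply hl h4
      · exact (Finset.filter_subset _ _).trans hQlsub
      · intro i S hS hc
        by_cases hi : i = (s, col, e)
        · subst hi
          rw [Function.update_self]
          have hSQ : S ⊆ Ql := hS.trans (Finset.filter_subset _ _)
          have hyS : y ∉ S := by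
            intro h
            exact (Finset.mem_filter.mp hy).2 (hQlsub (hSQ h))
          have hch : (node s l r).Chain c (s, col, e) (insert y S) := by
            have hlt : ∀ a ∈ S, a 0 < y 0 := fun a ha => h1 a (hQlsub (hSQ ha)) y (hQrsub hy)
            constructor
            · intro a ha b hb hab
              rcases Finset.mem_insert.mp ha with ha0 | haS
              · rcases Finset.mem_insert.mp hb with hb0 | hbS
                · rw [ha0, hb0] at hab
                  exact absurd hab (lt_irrefl _)
                · rw [ha0] at hab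
                  exact absurd (hab.trans (hlt b hbS)) (lt_irrefl _)
              rcases Finset.mem_insert.mp hb with hb0 | hbS
              · rw [hb0]
                exact ⟨Or.inl ⟨rfl, hQlsub (hSQ haS), hQrsub hy⟩,
                  (Finset.mem_filter.mp (hS haS)).2⟩
              · have := hc.1 a haS b hbS hab
                exact ⟨hsl _ _ _ this.1, this.2⟩
            · intro a ha b hb z hz hab hbz
              have hbS : b ∈ S := by
                rcases Finset.mem_insert.mp hb with rfl | hb
                · rcases Finset.mem_insert.mp hz with rfl | hz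
                  · exact absurd hbz (lt_irrefl _)
                  · exact absurd (hbz.trans (hlt z hz)) (lt_irrefl _)
                · exact hb
              have haS : a ∈ S := by
                rcases Finset.mem_insert.mp ha with rfl | ha
                · exact absurd (hab.trans (hlt b hbS)) (lt_irrefl _)
                · exact ha
              rcases Finset.mem_insert.mp hz with rfl | hz
              · exact he a b (hc.1 a haS b hbS hab).1 z (hQrsub hy)
              · exact hc.2 a haS b hbS z hz hab hbz
          have h6 := hw (s, col, e) (insert y S) (by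
            intro a ha
            rcases Finset.mem_insert.mp ha with rfl | ha
            · exact hQrQ hy
            · exact hQlQ (hSQ ha)) hch
          rw [Finset.card_insert_of_notMem hyS] at h6
          omega
        · rw [Function.update_of_ne hi]
          exact hw i S (hS.trans ((Finset.filter_subset _ _).trans hQlQ)) (hc.mono hsl)
    -- neighbours of `x` in the right part
    have hRc : ∀ col, (Qr.filter (fun a => c s(x, a) = col)).card ≤ 4 ^ N := by
      intro col
      rw [← hsum' (s, col, f)]
      apply hr h5
      · exact (Finset.filter_subset _ _).trans hQrsub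
      · intro i S hS hc
        by_cases hi : i = (s, col, f)
        · subst hi
          rw [Function.update_self]
          have hSQ : S ⊆ Qr := hS.trans (Finset.filter_subset _ _)
          have hxS : x ∉ S := by
            intro h
            exact (Finset.mem_filter.mp (hSQ h)).2 (hQlsub hx)
          have hch : (node s l r).Chain c (s, col, f) (insert x S) := by
            have hlt : ∀ a ∈ S, x 0 < a 0 := fun a ha => h1 x (hQlsub hx) a (hQrsub (hSQ ha))
            constructor
            · intro a ha b hb hab
              rcases Finset.mem_insert.mp hb with hb0 | hbS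
              · rcases Finset.mem_insert.mp ha with ha0 | haS
                · rw [ha0, hb0] at hab
                  exact absurd hab (lt_irrefl _)
                · rw [hb0] at hab
                  exact absurd (hab.trans (hlt a haS)) (lt_irrefl _)
              rcases Finset.mem_insert.mp ha with ha0 | haS
              · rw [ha0]
                exact ⟨Or.inl ⟨rfl, hQlsub hx, hQrsub (hSQ hbS)⟩,
                  (Finset.mem_filter.mp (hS hbS)).2⟩
              · have := hc.1 a haS b hbS hab
                exact ⟨hsr _ _ _ this.1, this.2⟩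
            · intro a ha b hb z hz hab hbz
              have hbS : b ∈ S := by
                rcases Finset.mem_insert.mp hb with rfl | hb
                · rcases Finset.mem_insert.mp ha with rfl | ha
                  · exact absurd hab (lt_irrefl _)
                  · exact absurd (hab.trans (hlt a ha)) (lt_irrefl _)
                · exact hb
              have hzS : z ∈ S := by
                rcases Finset.mem_insert.mp hz with rfl | hz
                · exact absurd ((hlt b hbS).trans hbz) (lt_irrefl _)
                · exact hz
              rcases Finset.mem_insert.mp ha with rfl | ha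
              · exact hf a (hQlsub hx) b z (hc.1 b hbS z hzS hbz).1
              · exact hc.2 a ha b hbS z hzS hab hbz
          have h6 := hw (s, col, f) (insert x S) (by
            intro a ha
            rcases Finset.mem_insert.mp ha with rfl | ha
            · exact hQlQ hx
            · exact hQrQ (hSQ ha)) hch
          rw [Finset.card_insert_of_notMem hxS] at h6
          omega
        · rw [Function.update_of_ne hi]
          exact hw i S (hS.trans ((Finset.filter_subset _ _).trans hQrQ)) (hc.mono hsr)
    have hcardL : Ql.card ≤ 4 ^ N + 4 ^ N := by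
      have h := Finset.card_filter_add_card_filter_not (s := Ql) (fun a => c s(a, y) = true)
      have h7 : (Ql.filter (fun a => ¬ c s(a, y) = true)).card ≤ 4 ^ N := by
        simpa using hLc false
      have := hLc true
      omega
    have hcardR : Qr.card ≤ 4 ^ N + 4 ^ N := by
      have h := Finset.card_filter_add_card_filter_not (s := Qr) (fun a => c s(x, a) = true)
      have h7 : (Qr.filter (fun a => ¬ c s(x, a) = true)).card ≤ 4 ^ N := by
        simpa using hRc false
      have := hRc true
      omega
    rw [hN, pow_succ]
    omega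

end STree

/-- **Upper bound.** -/
theorem forcesIn_of_lt {k p n : ℕ} (hp : 1 ≤ p) (hn : 2 ^ (8 * k * (p - 1)) < n) :
    ForcesIn k p n := by
  classical
  rintro P ⟨hgen, T, rfl, hT⟩ hcard c
  have hcr : ∀ a ∈ T.pts, ∀ b ∈ T.pts, ∀ y ∈ T.pts, a 0 < b 0 → b 0 < y 0 → cr a b y ≠ 0 := by
    intro a ha b hb y hy hab hby h0
    have h1 : a ≠ b := fun h => by rw [h] at hab; exact lt_irrefl _ hab
    have h2 : a ≠ y := fun h => by rw [h] at hab; exact lt_irrefl _ (hab.trans hby)
    have h3 : b ≠ y := fun h => by rw [h] at hby; exact lt_irrefl _ hby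
    exact hgen a ha b hb y hy h1 h2 h3 (collinear_of_cr h1 h0)
  have hkey : ∀ a ∈ T.pts, ∀ b ∈ T.pts, key a < key b → a 0 < b 0 := by
    intro a ha b hb hab
    rcases key_lt.mp hab with h | ⟨h, h'⟩
    · exact h
    · exact absurd h' (by rw [hT.inj a ha b hb h]; exact lt_irrefl _)
  -- a long chain exists
  obtain ⟨i, S, hST, hch, hSc⟩ : ∃ i S, S ⊆ T.pts ∧ T.Chain c i S ∧ p ≤ S.card := by
    by_contra hcon
    push Not at hcon
    have h := T.card_le c hT (fun _ => p - 1) T.pts (fun _ h => h) (by
      intro i S hS hc
      have := hcon i S hS hc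
      omega)
    have e : (∑ _i : Fin k × Bool × Bool, (p - 1)) = 4 * k * (p - 1) := by
      rw [Finset.sum_const, Finset.card_univ, Fintype.card_prod, Fintype.card_prod,
        Fintype.card_bool, Fintype.card_fin, smul_eq_mul]
      ring
    rw [e] at h
    have e2 : (4 : ℕ) ^ (4 * k * (p - 1)) = 2 ^ (8 * k * (p - 1)) := by
      rw [show (4 : ℕ) = 2 ^ 2 by norm_num, ← pow_mul]
      congr 1
      ring
    rw [e2] at h
    omega
  obtain ⟨S', hS'S, hS'c⟩ := Finset.exists_subset_card_eq hSc
  have hS'T : S' ⊆ T.pts := hS'S.trans hST
  refine ⟨S', hS'T, hS'c, ?_, i.2.1, ?_⟩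
  · apply convexPosition_of_mid S' (fun _ => i.2.2 = true)
    · intro a ha b hb y hy hab hby ho
      exact (hch.2 a (hS'S ha) b (hS'S hb) y (hS'S hy) (hkey a (hS'T ha) b (hS'T hb) hab)
        (hkey b (hS'T hb) y (hS'T hy) hby)).mpr ho
    · intro a ha b hb y hy hab hby ho
      have h1 := hkey a (hS'T ha) b (hS'T hb) hab
      have h2 := hkey b (hS'T hb) y (hS'T hy) hby
      have h3 : ¬ 0 < cr a b y := fun h => ho ((hch.2 a (hS'S ha) b (hS'S hb) y (hS'S hy) h1 h2).mp h)
      exact lt_of_le_of_ne (not_lt.mp h3) (hcr a (hS'T ha) b (hS'T hb) y (hS'T hy) h1 h2)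
  · intro a ha b hb hab
    rcases lt_trichotomy (a 0) (b 0) with h | h | h
    · exact (hch.1 a (hS'S ha) b (hS'S hb) h).2
    · exact absurd (hT.inj a (hS'T ha) b (hS'T hb) h) hab
    · rw [Sym2.eq_swap]
      exact (hch.1 b (hS'S hb) a (hS'S ha) h).2

end Pool.Agent.H39.ST
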